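import Pool.Agent.Q211.Lab.Op

/-!
MP_c9564b_pr: monotonicity of the recovery time of the labelled coupon collector.
-/

set_option autoImplicit false
open Finset MeasureTheory ProbabilityTheory
open scoped ENNReal

namespace Pool.Agent.Results.MP_c9564b_pr.Monotone

open Pool.Agent.Q211.Lab

variable {C L : Type*}

/-- `τ` is consistent with the first `t` samples `(S i, σ (S i))`. -/
def Consistent (σ τ : C ≃ L) (S : ℕ → Finset C) (t : ℕ) : Prop :=
  ∀ i < t, (S i).map τ.toEmbedding = (S i).map σ.toEmbedding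

/-- The matching `σ` is recovered after `t` samples: every coupon has appeared and `σ` is the only
consistent bijection. -/
def Recovered (σ : C ≃ L) (S : ℕ → Finset C) (t : ℕ) : Prop :=
  (∀ c, ∃ i < t, c ∈ S i) ∧ ∀ τ : C ≃ L, Consistent σ τ S t → τ = σ

/-- The recovery time, with value `∞` if the matching is never recovered. -/
noncomputable def recTime (σ : C ≃ L) (S : ℕ → Finset C) : ℝ≥0∞ :=
  sInf {x | ∃ t : ℕ, Recovered σ S t ∧ x = t}

/-- The law of a uniformly random `k`-subset: mass `1 / (n choose k)` on every `k`-subset. -/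
noncomputable def unifLaw [Fintype C] (k : ℕ) (s : Finset C) : ℝ≥0∞ :=
  if #s = k then ((Fintype.card C).choose k : ℝ≥0∞)⁻¹ else 0

/-- The law of a sample whose size is `k₁` with probability `p` and `k₂` with probability `1 - p`. -/
noncomputable def mixLaw [Fintype C] (p : ℝ) (k₁ k₂ : ℕ) (s : Finset C) : ℝ≥0∞ :=
  ENNReal.ofReal p * unifLaw k₁ s + ENNReal.ofReal (1 - p) * unifLaw k₂ s

/-- `S 0, S 1, …` are independent random subsets, each with law `q`. -/
structure IIDSamples {Ω : Type*} [MeasurableSpace Ω] (μ : Measure Ω) (S : ℕ → Ω → Finset C)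
    (q : Finset C → ℝ≥0∞) : Prop where
  meas : ∀ i, Measurable[_, (⊤ : MeasurableSpace (Finset C))] (S i)
  indep : iIndepFun (m := fun _ => (⊤ : MeasurableSpace (Finset C))) S μ
  law : ∀ i s, μ {ω | S i ω = s} = q s

theorem recovered_iff [DecidableEq C] (σ : C ≃ L) (S : ℕ → Finset C) (t : ℕ) :
    Recovered σ S t ↔ Sep ((range t).image S) := by
  have hm : ∀ (τ : C ≃ L) (s : Finset C) (c : C), τ c ∈ s.map τ.toEmbedding ↔ c ∈ s := by
    intro τ s c
    exact Finset.mem_map' τ.toEmbedding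
  constructor
  · rintro ⟨h1, h2⟩
    refine ⟨fun c => ?_, fun x y hxy => ?_⟩
    · obtain ⟨i, hi, hc⟩ := h1 c
      exact ⟨S i, mem_image.2 ⟨i, mem_range.2 hi, rfl⟩, hc⟩
    · by_contra hcon
      push Not at hcon
      have hcons : Consistent σ ((Equiv.swap x y).trans σ) S t := by
        intro i hi
        have hxyi : x ∈ S i ↔ y ∈ S i := hcon _ (mem_image.2 ⟨i, mem_range.2 hi, rfl⟩)
        ext l
        obtain ⟨c, rfl⟩ := σ.surjective l
        rw [hm σ]
        have : σ c = ((Equiv.swap x y).trans σ) (Equiv.swap x y c) := by simp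
        rw [this, hm]
        rcases eq_or_ne c x with rfl | hcx
        · rw [Equiv.swap_apply_left]; exact hxyi.symm
        · rcases eq_or_ne c y with rfl | hcy
          · rw [Equiv.swap_apply_right]; exact hxyi
          · rw [Equiv.swap_apply_of_ne_of_ne hcx hcy]
      have := h2 _ hcons
      have h3 : σ y = σ x := by
        have := congrArg (fun e : C ≃ L => e x) this
        simpa using this
      exact hxy (σ.injective h3).symm
  · rintro ⟨h1, h2⟩
    refine ⟨fun c => ?_, fun τ hτ => ?_⟩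
    · obtain ⟨s, hs, hc⟩ := h1 c
      obtain ⟨i, hi, rfl⟩ := mem_image.1 hs
      exact ⟨i, mem_range.1 hi, hc⟩
    · ext c
      have hc : σ.symm (τ c) = c := by
        by_contra hne
        obtain ⟨s, hs, hsep⟩ := h2 _ _ hne
        obtain ⟨i, hi, rfl⟩ := mem_image.1 hs
        apply hsep
        have e1 := hτ i (mem_range.1 hi)
        have e2 : τ c ∈ (S i).map τ.toEmbedding ↔ c ∈ S i := hm τ _ c
        have e3 : τ c ∈ (S i).map σ.toEmbedding ↔ σ.symm (τ c) ∈ S i := by
          have := hm σ (S i) (σ.symm (τ c))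
          rwa [Equiv.apply_symm_apply] at this
        rw [← e3, ← e1, e2]
      exact (Equiv.symm_apply_eq σ).1 hc

theorem recovered_mono (σ : C ≃ L) (S : ℕ → Finset C) {t t' : ℕ} (h : t ≤ t')
    (hr : Recovered σ S t) : Recovered σ S t' :=
  ⟨fun c => by
    obtain ⟨i, hi, hc⟩ := hr.1 c
    exact ⟨i, lt_of_lt_of_le hi h, hc⟩,
    fun τ hτ => hr.2 τ fun i hi => hτ i (lt_of_lt_of_le hi h)⟩

open Classical in
theorem recTime_eq (σ : C ≃ L) (S : ℕ → Finset C) :
    recTime σ S = ∑' t : ℕ, if Recovered σ S t then (0 : ℝ≥0∞) else 1 := by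
  by_cases h : ∃ t, Recovered σ S t
  · set t₀ := Nat.find h with ht₀
    have h1 : recTime σ S = (t₀ : ℝ≥0∞) := by
      apply le_antisymm
      · exact sInf_le ⟨t₀, Nat.find_spec h, rfl⟩
      · refine le_sInf ?_
        rintro x ⟨t, ht, rfl⟩
        exact_mod_cast Nat.find_min' h ht
    rw [h1, tsum_eq_sum (s := range t₀)]
    · rw [Finset.sum_congr rfl (g := fun _ => (1 : ℝ≥0∞))]
      · simp
      · intro t ht
        rw [if_neg (Nat.find_min h (mem_range.1 ht))]
    · intro t ht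
      rw [if_pos (recovered_mono σ S (Nat.le_of_not_lt fun hh => ht (mem_range.2 hh))
        (Nat.find_spec h))]
  · push Not at h
    have h1 : recTime σ S = ⊤ := by
      have : {x : ℝ≥0∞ | ∃ t : ℕ, Recovered σ S t ∧ x = t} = ∅ := by
        ext x; simp only [Set.mem_ofPred_eq, Set.mem_empty_iff_false, iff_false]
        rintro ⟨t, ht, -⟩; exact h t ht
      rw [recTime, this, sInf_empty]
    rw [h1]
    simp_rw [if_neg (h _)]
    rw [ENNReal.tsum_const_eq_top_of_ne_zero one_ne_zero]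

open Classical in
theorem prob_recovered [Fintype C] [DecidableEq C] (σ : C ≃ L) {Ω : Type*} [MeasurableSpace Ω]
    {μ : Measure Ω} [IsProbabilityMeasure μ] {S : ℕ → Ω → Finset C} {q : Finset C → ℝ≥0∞}
    (h : IIDSamples μ S q) (t : ℕ) :
    MeasurableSet {ω | Recovered σ (fun i => S i ω) t} ∧
      μ {ω | Recovered σ (fun i => S i ω) t} = (A q)^[t] ind ∅ := by
  have hs : IsSampling μ S q := ⟨h.meas, h.indep, h.law⟩
  have hset : MeasurableSet {ω | Recovered σ (fun i => S i ω) t} := by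
    simp_rw [recovered_iff]
    have e : {ω | Sep ((range t).image fun i => S i ω)} =
        ⋃ f ∈ {f : ↥(range t) → Finset C | Sep (univ.image f)},
          ⋂ i : ↥(range t), {ω | S i ω = f i} := by
      ext ω
      simp only [Set.mem_ofPred_eq, Set.mem_iUnion, Set.mem_iInter, exists_prop]
      have hi : ∀ f : ↥(range t) → Finset C, (∀ i : ↥(range t), S i ω = f i) →
          univ.image f = (range t).image fun i => S i ω := by
        intro f hf
        ext s
        simp only [mem_image, mem_univ, true_and]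
        constructor
        · rintro ⟨i, rfl⟩; exact ⟨i, i.2, hf i⟩
        · rintro ⟨i, hi, rfl⟩; exact ⟨⟨i, hi⟩, (hf ⟨i, hi⟩).symm⟩
      constructor
      · intro hS
        refine ⟨fun i => S i ω, ?_, fun i => rfl⟩
        rw [hi _ fun i => rfl]; exact hS
      · rintro ⟨f, hf, hfi⟩
        rw [hi f hfi] at hf; exact hf
    rw [e]
    refine MeasurableSet.biUnion (Set.toFinite _).countable fun f _ => MeasurableSet.iInter fun i => ?_
    exact @h.meas i {f i} trivial
  refine ⟨hset, ?_⟩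
  rw [← lintegral_rows hs t ind, ← lintegral_indicator_one hset]
  refine lintegral_congr fun ω => ?_
  unfold ind
  by_cases hr : Recovered σ (fun i => S i ω) t
  · rw [Set.indicator_of_mem (show ω ∈ {ω | Recovered σ (fun i => S i ω) t} from hr),
      if_pos ((recovered_iff σ _ t).1 hr)]; rfl
  · rw [Set.indicator_of_notMem (show ω ∉ {ω | Recovered σ (fun i => S i ω) t} from hr),
      if_neg fun hh => hr ((recovered_iff σ _ t).2 hh)]

open Classical in
theorem lintegral_recTime [Fintype C] [DecidableEq C] (σ : C ≃ L) {Ω : Type*} [MeasurableSpace Ω]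
    {μ : Measure Ω} [IsProbabilityMeasure μ] {S : ℕ → Ω → Finset C} {q : Finset C → ℝ≥0∞}
    (h : IIDSamples μ S q) :
    ∫⁻ ω, recTime σ (fun i => S i ω) ∂μ = ∑' t : ℕ, (1 - (A q)^[t] ind ∅) := by
  simp_rw [recTime_eq]
  rw [lintegral_tsum]
  · refine tsum_congr fun t => ?_
    obtain ⟨hm, hp⟩ := prob_recovered σ h t
    rw [← hp, ← prob_compl_eq_one_sub hm, ← lintegral_indicator_one hm.compl]
    refine lintegral_congr fun ω => ?_
    by_cases hr : Recovered σ (fun i => S i ω) t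
    · rw [if_pos hr, Set.indicator_of_notMem]
      simpa using hr
    · rw [if_neg hr, Set.indicator_of_mem]
      · rfl
      · simpa using hr
  · intro t
    obtain ⟨hm, -⟩ := prob_recovered σ h t
    exact (Measurable.ite hm measurable_const measurable_const).aemeasurable

/-- For `1 ≤ k₁ < k₂ ≤ n / 2` and `p ∈ [0,1]`: the recovery times satisfy
`T_{k₂} ≤ T_K ≤ T_{k₁}` stochastically, and therefore in mean. -/
theorem result {C L : Type} [Fintype C] (σ : C ≃ L) (n k₁ k₂ : ℕ)
    (_hn : 2 ≤ n) (hC : Fintype.card C = n) (_h1 : 1 ≤ k₁) (h12 : k₁ < k₂) (h2 : 2 * k₂ ≤ n)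
    (p : ℝ) (hp0 : 0 ≤ p) (hp1 : p ≤ 1)
    {Ω₁ Ω₂ Ω : Type} [MeasurableSpace Ω₁] [MeasurableSpace Ω₂] [MeasurableSpace Ω]
    (μ₁ : Measure Ω₁) (μ₂ : Measure Ω₂) (μ : Measure Ω) [IsProbabilityMeasure μ₁]
    [IsProbabilityMeasure μ₂] [IsProbabilityMeasure μ]
    (S₁ : ℕ → Ω₁ → Finset C) (S₂ : ℕ → Ω₂ → Finset C) (S : ℕ → Ω → Finset C)
    (hS₁ : IIDSamples μ₁ S₁ (unifLaw k₁)) (hS₂ : IIDSamples μ₂ S₂ (unifLaw k₂))
    (hS : IIDSamples μ S (mixLaw p k₁ k₂)) :
    (∀ t : ℕ, μ₁ {ω | Recovered σ (fun i => S₁ i ω) t} ≤ μ {ω | Recovered σ (fun i => S i ω) t} ∧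
      μ {ω | Recovered σ (fun i => S i ω) t} ≤ μ₂ {ω | Recovered σ (fun i => S₂ i ω) t}) ∧
    ∫⁻ ω, recTime σ (fun i => S₂ i ω) ∂μ₂ ≤ ∫⁻ ω, recTime σ (fun i => S i ω) ∂μ ∧
    ∫⁻ ω, recTime σ (fun i => S i ω) ∂μ ≤ ∫⁻ ω, recTime σ (fun i => S₁ i ω) ∂μ₁ := by
  classical
  subst hC
  have e1 : (unifLaw k₁ : Finset C → ℝ≥0∞) = unif k₁ := rfl
  have e2 : (unifLaw k₂ : Finset C → ℝ≥0∞) = unif k₂ := rfl
  have e3 : (mixLaw p k₁ k₂ : Finset C → ℝ≥0∞) = mix (ENNReal.ofReal p) k₁ k₂ := by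
    funext s
    rw [mixLaw, mix, ENNReal.ofReal_sub _ hp0, ENNReal.ofReal_one]
    rfl
  rw [e1] at hS₁
  rw [e2] at hS₂
  rw [e3] at hS
  have hp : ENNReal.ofReal p ≤ 1 := by simpa using hp1
  have a1 : ∀ t B, (A (unif k₁))^[t] ind B ≤ (A (mix (ENNReal.ofReal p) k₁ k₂))^[t] ind B :=
    fun t B => A_iter_le (mix_ge hp h12.le h2) t B
  have a2 : ∀ t B, (A (mix (ENNReal.ofReal p) k₁ k₂))^[t] ind B ≤ (A (unif k₂))^[t] ind B :=
    fun t B => A_iter_le (mix_le hp h12.le h2) t B
  refine ⟨fun t => ⟨?_, ?_⟩, ?_, ?_⟩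
  · rw [(prob_recovered σ hS₁ t).2, (prob_recovered σ hS t).2]; exact a1 t ∅
  · rw [(prob_recovered σ hS₂ t).2, (prob_recovered σ hS t).2]; exact a2 t ∅
  · rw [lintegral_recTime σ hS₂, lintegral_recTime σ hS]
    exact ENNReal.tsum_le_tsum fun t => tsub_le_tsub_left (a2 t ∅) 1
  · rw [lintegral_recTime σ hS₁, lintegral_recTime σ hS]
    exact ENNReal.tsum_le_tsum fun t => tsub_le_tsub_left (a1 t ∅) 1

end Pool.Agent.Results.MP_c9564b_pr.Monotone
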